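import Mathlib
import Pool.Agent.N223.PS.Def

/-!
# Project PS, part AR (helper457): the area of a path which follows an enlarged closed lattice path
-/

set_option autoImplicit false
set_option linter.unusedVariables false

namespace Pool.Agent.N457.PS

open Pool.Agent.N223.PS
open scoped Classical

noncomputable section

/-- the truth value in `ZMod 2` -/
def tv (p : Prop) : ZMod 2 := if p then 1 else 0

lemma tv_true {p : Prop} (h : p) : tv p = 1 := if_pos h

lemma tv_false {p : Prop} (h : ¬ p) : tv p = 0 := if_neg h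

lemma tv_congr {p q : Prop} (h : p ↔ q) : tv p = tv q := by
  by_cases hp : p
  · rw [tv_true hp, tv_true (h.1 hp)]
  · rw [tv_false hp, tv_false (fun hq => hp (h.2 hq))]

/-- the edge `k` joins the columns `a` and `a + 1` -/
def Jn (P : ℕ → ℤ × ℤ) (a : ℤ) (k : ℕ) : Prop :=
  ((P k).1 = a ∧ (P (k + 1)).1 = a + 1) ∨ ((P k).1 = a + 1 ∧ (P (k + 1)).1 = a)

lemma Ab_iff (P : ℕ → ℤ × ℤ) (a b : ℤ) (k : ℕ) : Ab P a b k ↔ Jn P a k ∧ b < (P k).2 := Iff.rfl

lemma nb_abs {p q : ℤ × ℤ} (h : Nb p q) : |p.1 - q.1| ≤ 1 := by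
  have h1 := abs_nonneg (p.2 - q.2)
  unfold Nb at h
  linarith

lemma tv_jn {P : ℕ → ℤ × ℤ} {k : ℕ} (h : Nb (P k) (P (k + 1))) (a : ℤ) :
    tv (Jn P a k) = tv ((P k).1 ≤ a) + tv ((P (k + 1)).1 ≤ a) := by
  have h1 := abs_le.1 (nb_abs h)
  by_cases h2 : (P k).1 ≤ a
  · by_cases h3 : (P (k + 1)).1 ≤ a
    · rw [tv_true h2, tv_true h3, tv_false]
      · decide
      · unfold Jn
        omega
    · rw [tv_true h2, tv_false h3, tv_true]
      · decide
      · unfold Jn
        omega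
  · by_cases h3 : (P (k + 1)).1 ≤ a
    · rw [tv_false h2, tv_true h3, tv_true]
      · decide
      · unfold Jn
        omega
    · rw [tv_false h2, tv_false h3, tv_false]
      · decide
      · unfold Jn
        omega

/-- the parity of the number of the edges between two columns -/
lemma sum_jn {P : ℕ → ℤ × ℤ} (a : ℤ) (s t : ℕ) (hst : s ≤ t)
    (h : ∀ k, s ≤ k → k < t → Nb (P k) (P (k + 1))) :
    ∑ k ∈ Finset.Ico s t, tv (Jn P a k) = tv ((P s).1 ≤ a) + tv ((P t).1 ≤ a) := by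
  induction t, hst using Nat.le_induction with
  | base =>
    rw [Finset.Ico_self, Finset.sum_empty]
    exact (CharTwo.add_self_eq_zero _).symm
  | succ t hst ih =>
    rw [Finset.sum_Ico_succ_top hst, ih fun k h1 h2 => h k h1 (by omega),
      tv_jn (h t hst (by omega))]
    have := CharTwo.add_self_eq_zero (tv ((P t).1 ≤ a))
    linear_combination this

lemma ab_cast (L : ℕ) (P : ℕ → ℤ × ℤ) (a b : ℤ) :
    ((ab L P a b : ℕ) : ZMod 2) = ∑ k ∈ Finset.range L, tv (Ab P a b k) := by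
  unfold ab tv
  rw [Finset.card_filter, Nat.cast_sum]
  refine Finset.sum_congr rfl fun k _ => ?_
  split_ifs <;> simp

lemma En_iff (L : ℕ) (P : ℕ → ℤ × ℤ) (c : ℤ × ℤ) :
    En L P c ↔ ∑ k ∈ Finset.range L, tv (Ab P c.1 c.2 k) = 1 := by
  unfold En
  rw [← ab_cast, ZMod.natCast_eq_one_iff_odd]

lemma sum_blocks (F : ℕ → ZMod 2) (τ : ℕ → ℕ) (h0 : τ 0 = 0) (L : ℕ)
    (hτ : ∀ i < L, τ i ≤ τ (i + 1)) :
    ∑ k ∈ Finset.range (τ L), F k =
      ∑ i ∈ Finset.range L, ∑ k ∈ Finset.Ico (τ i) (τ (i + 1)), F k := by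
  induction L with
  | zero => rw [h0]; simp
  | succ L ih =>
    rw [Finset.sum_range_succ, ← ih fun i hi => hτ i (by omega), Finset.range_eq_Ico,
      Finset.range_eq_Ico, Finset.sum_Ico_consecutive _ (Nat.zero_le _) (hτ L (by omega))]

/-- the exceptional cells of the block `i` -/
def Bx (P : ℕ → ℤ × ℤ) (Y : ℕ) (i : ℕ) : Finset (ℤ × ℤ) :=
  Finset.Ico ((Y : ℤ) * (P i).1 - Y) ((Y : ℤ) * (P i).1 + Y) ×ˢ
    Finset.Ico ((Y : ℤ) * (P i).2 - Y) ((Y : ℤ) * (P i).2 + Y)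

lemma card_Bx (P : ℕ → ℤ × ℤ) (Y i : ℕ) : (Bx P Y i).card = 4 * Y ^ 2 := by
  unfold Bx
  rw [Finset.card_product, Int.card_Ico, Int.card_Ico]
  have h : ∀ x : ℤ, (x + Y - (x - Y)).toNat = 2 * Y := fun x => by omega
  rw [h, h]
  ring

lemma block {L : ℕ} {P : ℕ → ℤ × ℤ} {Y : ℕ} {τ : ℕ → ℕ} {g : ℕ → ℤ × ℤ} (hP : Cl L P)
    (hY : 1 ≤ Y) (hτ : ∀ i < L, τ i ≤ τ (i + 1)) (hτL : ∀ i ≤ L, τ i ≤ τ L)
    (hg : ∀ k < τ L, Nb (g k) (g (k + 1)))
    (hgτ : ∀ i ≤ L, g (τ i) = ((Y : ℤ) * (P i).1, (Y : ℤ) * (P i).2))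
    (hnear : ∀ i < L, ∀ k, τ i ≤ k → k ≤ τ (i + 1) →
      |(g k).1 - (Y : ℤ) * (P i).1| ≤ (Y : ℤ) ∧ |(g k).2 - (Y : ℤ) * (P i).2| ≤ (Y : ℤ))
    {i : ℕ} (hi : i < L) {c : ℤ × ℤ} (hc : c ∉ Bx P Y i) :
    ∑ k ∈ Finset.Ico (τ i) (τ (i + 1)), tv (Ab g c.1 c.2 k) =
      tv (Ab P (c.1 / Y) (c.2 / Y) i) := by
  obtain ⟨a, b⟩ := c
  simp only
  have hY0 : (0 : ℤ) < Y := by exact_mod_cast hY
  have ha1 := Int.mul_ediv_self_le (x := a) (k := (Y : ℤ)) hY0.ne'
  have ha2 := Int.lt_mul_ediv_self_add (x := a) (k := (Y : ℤ)) hY0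
  have hb1 := Int.mul_ediv_self_le (x := b) (k := (Y : ℤ)) hY0.ne'
  have hb2 := Int.lt_mul_ediv_self_add (x := b) (k := (Y : ℤ)) hY0
  set A := a / (Y : ℤ) with hA
  set B := b / (Y : ℤ) with hB
  have hbox : ¬ ((Y : ℤ) * (P i).1 - Y ≤ a ∧ a < (Y : ℤ) * (P i).1 + Y ∧
      (Y : ℤ) * (P i).2 - Y ≤ b ∧ b < (Y : ℤ) * (P i).2 + Y) := by
    intro h
    apply hc
    unfold Bx
    rw [Finset.mem_product, Finset.mem_Ico, Finset.mem_Ico]
    exact ⟨⟨h.1, h.2.1⟩, h.2.2.1, h.2.2.2⟩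
  have hzero : (∀ k, τ i ≤ k → k < τ (i + 1) → ¬ Ab g a b k) → ¬ Ab P A B i →
      ∑ k ∈ Finset.Ico (τ i) (τ (i + 1)), tv (Ab g a b k) = tv (Ab P A B i) := by
    intro h1 h2
    rw [tv_false h2]
    refine Finset.sum_eq_zero fun k hk => ?_
    rw [Finset.mem_Ico] at hk
    exact tv_false (h1 k hk.1 hk.2)
  by_cases h1 : (Y : ℤ) * (P i).1 - Y ≤ a ∧ a < (Y : ℤ) * (P i).1 + Y
  · by_cases h2 : b < (Y : ℤ) * (P i).2 + Y
    · -- below the box
      have h3 : b < (Y : ℤ) * (P i).2 - Y := by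
        by_contra h4
        push Not at h4
        exact hbox ⟨h1.1, h1.2, h4, h2⟩
      have e1 : ∑ k ∈ Finset.Ico (τ i) (τ (i + 1)), tv (Ab g a b k) =
          ∑ k ∈ Finset.Ico (τ i) (τ (i + 1)), tv (Jn g a k) := by
        refine Finset.sum_congr rfl fun k hk => tv_congr ?_
        rw [Finset.mem_Ico] at hk
        rw [Ab_iff]
        refine ⟨fun h => h.1, fun h => ⟨h, ?_⟩⟩
        have h5 := (abs_le.1 (hnear i hi k hk.1 hk.2.le).2).1
        linarith
      have e2 : ∀ x : ℤ, ((Y : ℤ) * x ≤ a) ↔ x ≤ A := by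
        intro x
        rw [hA, Int.le_ediv_iff_mul_le hY0, mul_comm]
      rw [e1, sum_jn a _ _ (hτ i hi) fun k h5 h6 => hg k (lt_of_lt_of_le h6 (hτL _ (by omega))),
        hgτ i hi.le, hgτ (i + 1) (by omega)]
      simp only
      rw [tv_congr (e2 _), tv_congr (e2 _), ← tv_jn (hP.adj i hi)]
      refine tv_congr ?_
      rw [Ab_iff]
      refine ⟨fun h => ⟨h, ?_⟩, fun h => h.1⟩
      have h5 : (Y : ℤ) * B < (Y : ℤ) * (P i).2 := by linarith
      exact lt_of_mul_lt_mul_left h5 hY0.le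
    · -- above the box
      push Not at h2
      refine hzero (fun k hk1 hk2 h => ?_) fun h => ?_
      · have h5 := (abs_le.1 (hnear i hi k hk1 hk2.le).2).2
        have h6 := h.2
        linarith
      · have h6 := h.2
        have h7 : (Y : ℤ) * (B + 1) ≤ (Y : ℤ) * (P i).2 :=
          mul_le_mul_of_nonneg_left (by omega) hY0.le
        have h8 : (Y : ℤ) * (B + 1) = Y * B + Y := by ring
        linarith
  · -- beside the box
    refine hzero (fun k hk1 hk2 h => ?_) fun h => ?_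
    · have h5 := abs_le.1 (hnear i hi k hk1 hk2.le).1
      have h6 := abs_le.1 (hnear i hi (k + 1) (by omega) (by omega)).1
      apply h1
      rcases h.1 with ⟨h7, h8⟩ | ⟨h7, h8⟩
      · constructor <;> linarith
      · constructor <;> linarith
    · apply h1
      rcases h.1 with ⟨h7, h8⟩ | ⟨h7, h8⟩
      · rw [h7]
        constructor <;> linarith
      · rw [h7]
        have h9 : (Y : ℤ) * (A + 1) = Y * A + Y := by ring
        rw [h9]
        constructor <;> linarith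

lemma En_finite {L : ℕ} {P : ℕ → ℤ × ℤ} (hP : Cl L P) : {c : ℤ × ℤ | En L P c}.Finite := by
  obtain ⟨m, hm⟩ : ∃ m : ℤ, ∀ k < L, |(P k).1| ≤ m ∧ |(P k).2| ≤ m := by
    refine ⟨∑ k ∈ Finset.range L, (|(P k).1| + |(P k).2|), fun k hk => ?_⟩
    have h1 : |(P k).1| + |(P k).2| ≤ ∑ k ∈ Finset.range L, (|(P k).1| + |(P k).2|) :=
      Finset.single_le_sum (f := fun k => |(P k).1| + |(P k).2|)
        (fun _ _ => by positivity) (Finset.mem_range.2 hk)
    have h2 := abs_nonneg (P k).1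
    have h3 := abs_nonneg (P k).2
    constructor <;> linarith
  refine Set.Finite.subset (Finset.finite_toSet
    (Finset.Icc (-m - 1) m ×ˢ Finset.Icc (-m) m)) ?_
  rintro ⟨A, B⟩ hc
  have hc : En L P (A, B) := hc
  rw [Finset.coe_product, Set.mem_prod, Finset.coe_Icc, Finset.coe_Icc, Set.mem_Icc, Set.mem_Icc]
  simp only
  rw [En_iff] at hc
  simp only at hc
  obtain ⟨k, hk, hk1⟩ : ∃ k < L, Ab P A B k := by
    by_contra hcon
    push Not at hcon
    rw [Finset.sum_eq_zero fun k hk => tv_false (hcon k (Finset.mem_range.1 hk))] at hc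
    exact absurd hc (by decide)
  have h1 := abs_le.1 (hm k hk).1
  have h2 := abs_le.1 (hm k hk).2
  have h3 : -m ≤ B := by
    by_contra hcon
    push Not at hcon
    have e1 : ∑ k ∈ Finset.range L, tv (Ab P A B k) =
        ∑ k ∈ Finset.Ico 0 L, tv (Jn P A k) := by
      rw [← Finset.range_eq_Ico]
      refine Finset.sum_congr rfl fun k hk => tv_congr ?_
      rw [Ab_iff]
      refine ⟨fun h => h.1, fun h => ⟨h, ?_⟩⟩
      have h5 := (abs_le.1 (hm k (Finset.mem_range.1 hk)).2).1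
      linarith
    rw [e1, sum_jn A 0 L (Nat.zero_le _) (fun k _ h5 => hP.adj k h5), hP.clo,
      CharTwo.add_self_eq_zero] at hc
    exact absurd hc (by decide)
  have h4 := hk1.2
  rcases hk1.1 with ⟨h5, h6⟩ | ⟨h5, h6⟩
  · refine ⟨⟨by linarith, by linarith⟩, h3, by linarith⟩
  · refine ⟨⟨by linarith, by linarith⟩, h3, by linarith⟩

/-- AR -/
theorem ar_close : S_AR := by
  intro L P Y τ g hP hY h0 hτ hg hgτ hnear
  have hY0 : (0 : ℤ) < Y := by exact_mod_cast hY
  have hτL : ∀ i ≤ L, τ i ≤ τ L := by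
    intro i hi
    have key : ∀ d, i + d ≤ L → τ i ≤ τ (i + d) := by
      intro d
      induction d with
      | zero => intro _; exact le_rfl
      | succ d ih => exact fun hd => (ih (by omega)).trans (hτ (i + d) (by omega))
    have := key (L - i) (by omega)
    rwa [Nat.add_sub_cancel' hi] at this
  set S : Set (ℤ × ℤ) := {c | En (τ L) g c} with hS
  set T : Set (ℤ × ℤ) := {c | En L P (c.1 / Y, c.2 / Y)} with hT
  set X : Finset (ℤ × ℤ) := (Finset.range L).biUnion (Bx P Y) with hX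
  have hXc : X.card ≤ 4 * Y ^ 2 * L := by
    refine Finset.card_biUnion_le.trans (le_of_eq ?_)
    simp only [card_Bx, Finset.sum_const, Finset.card_range, smul_eq_mul]
    ring
  have hST : ∀ c, c ∉ X → (c ∈ S ↔ c ∈ T) := by
    intro c hc
    have e1 : c ∈ S ↔ En (τ L) g c := Iff.rfl
    have e2 : c ∈ T ↔ En L P (c.1 / Y, c.2 / Y) := Iff.rfl
    rw [e1, e2, En_iff, En_iff, sum_blocks _ τ h0 L hτ]
    have e3 : ∑ i ∈ Finset.range L, ∑ k ∈ Finset.Ico (τ i) (τ (i + 1)), tv (Ab g c.1 c.2 k) =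
        ∑ i ∈ Finset.range L, tv (Ab P (c.1 / Y) (c.2 / Y) i) := by
      refine Finset.sum_congr rfl fun i hi => ?_
      refine block hP hY hτ hτL hg hgτ hnear (Finset.mem_range.1 hi) fun h => hc ?_
      rw [hX, Finset.mem_biUnion]
      exact ⟨i, hi, h⟩
    rw [e3]
  -- the second set
  have hE := En_finite hP
  obtain ⟨φ, hφ⟩ : ∃ φ : (ℤ × ℤ) × (ℕ × ℕ) → ℤ × ℤ, ∀ p, φ p =
      ((Y : ℤ) * p.1.1 + p.2.1, (Y : ℤ) * p.1.2 + p.2.2) := ⟨_, fun _ => rfl⟩
  have hdiv : ∀ (x : ℤ) (r : ℕ), r < Y → ((Y : ℤ) * x + r) / Y = x ∧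
      ((Y : ℤ) * x + r) % Y = r := by
    intro x r hr
    constructor
    · rw [Int.mul_add_ediv_left _ _ hY0.ne', Int.ediv_eq_zero_of_lt (by omega) (by omega),
        add_zero]
    · rw [Int.mul_add_emod_self_left]
      exact Int.emod_eq_of_lt (by omega) (by omega)
  set D : Finset ((ℤ × ℤ) × (ℕ × ℕ)) :=
    hE.toFinset ×ˢ (Finset.range Y ×ˢ Finset.range Y) with hD
  have hTD : T = ↑(D.image φ) := by
    ext c
    have e2 : c ∈ T ↔ En L P (c.1 / Y, c.2 / Y) := Iff.rfl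
    rw [e2, Finset.mem_coe, Finset.mem_image]
    constructor
    · intro h
      refine ⟨((c.1 / Y, c.2 / Y), ((c.1 % Y).toNat, (c.2 % Y).toNat)), ?_, ?_⟩
      · have h3 := Int.emod_nonneg c.1 hY0.ne'
        have h4 := Int.emod_lt_of_pos c.1 hY0
        have h5 := Int.emod_nonneg c.2 hY0.ne'
        have h6 := Int.emod_lt_of_pos c.2 hY0
        rw [hD, Finset.mem_product, Finset.mem_product, Set.Finite.mem_toFinset,
          Finset.mem_range, Finset.mem_range]
        refine ⟨h, ?_, ?_⟩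
        · simp only
          omega
        · simp only
          omega
      · rw [hφ]
        simp only
        rw [Int.toNat_of_nonneg (Int.emod_nonneg c.1 hY0.ne'),
          Int.toNat_of_nonneg (Int.emod_nonneg c.2 hY0.ne'), Int.mul_ediv_add_emod,
          Int.mul_ediv_add_emod]
    · rintro ⟨p, hp, rfl⟩
      rw [hD, Finset.mem_product, Finset.mem_product, Set.Finite.mem_toFinset,
        Finset.mem_range, Finset.mem_range] at hp
      rw [hφ]
      simp only
      rw [(hdiv _ _ hp.2.1).1, (hdiv _ _ hp.2.2).1]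
      exact hp.1
  have hinj : Set.InjOn φ ↑D := by
    intro p hp r hr h
    rw [Finset.mem_coe, hD, Finset.mem_product, Finset.mem_product, Finset.mem_range,
      Finset.mem_range] at hp hr
    rw [hφ, hφ, Prod.mk.injEq] at h
    have h1 := hdiv p.1.1 _ hp.2.1
    have h2 := hdiv p.1.2 _ hp.2.2
    have h3 := hdiv r.1.1 _ hr.2.1
    have h4 := hdiv r.1.2 _ hr.2.2
    rw [← h.1] at h3
    rw [← h.2] at h4
    refine Prod.ext (Prod.ext ?_ ?_) (Prod.ext ?_ ?_)
    · exact h1.1.symm.trans h3.1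
    · exact h2.1.symm.trans h4.1
    · have := h1.2.symm.trans h3.2
      exact_mod_cast this
    · have := h2.2.symm.trans h4.2
      exact_mod_cast this
  have hTf : T.Finite := by
    rw [hTD]
    exact Finset.finite_toSet _
  have hTc : T.ncard = Y ^ 2 * ar L P := by
    rw [hTD, Set.ncard_coe_finset, Finset.card_image_of_injOn hinj, hD, Finset.card_product,
      Finset.card_product, Finset.card_range, ← Set.ncard_eq_toFinset_card _ hE]
    have : ar L P = {c : ℤ × ℤ | En L P c}.ncard := rfl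
    rw [this]
    ring
  have hsub1 : S ⊆ T ∪ ↑X := by
    intro c hc
    by_cases h : c ∈ X
    · exact Or.inr h
    · exact Or.inl ((hST c h).1 hc)
  have hsub2 : T ⊆ S ∪ ↑X := by
    intro c hc
    by_cases h : c ∈ X
    · exact Or.inr h
    · exact Or.inl ((hST c h).2 hc)
  have hXf : (↑X : Set (ℤ × ℤ)).Finite := Finset.finite_toSet X
  have hSf : S.Finite := (hTf.union hXf).subset hsub1
  have h1 : S.ncard ≤ T.ncard + X.card := by
    refine (Set.ncard_le_ncard hsub1 (hTf.union hXf)).trans ((Set.ncard_union_le _ _).trans ?_)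
    rw [Set.ncard_coe_finset]
  have h2 : T.ncard ≤ S.ncard + X.card := by
    refine (Set.ncard_le_ncard hsub2 (hSf.union hXf)).trans ((Set.ncard_union_le _ _).trans ?_)
    rw [Set.ncard_coe_finset]
  have hSa : ar (τ L) g = S.ncard := rfl
  rw [hSa]
  have h3 : (T.ncard : ℤ) = (Y : ℤ) ^ 2 * (ar L P : ℕ) := by
    rw [hTc]
    push_cast
    ring
  rw [← h3, abs_le]
  have h4 : (X.card : ℤ) ≤ 4 * (Y : ℤ) ^ 2 * L := by exact_mod_cast hXc
  have h5 : (S.ncard : ℤ) ≤ T.ncard + X.card := by exact_mod_cast h1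
  have h6 : (T.ncard : ℤ) ≤ S.ncard + X.card := by exact_mod_cast h2
  constructor <;> linarith

end

end Pool.Agent.N457.PS
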